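import Pool.Agent.Helper98.CLTd.Radial

/-! (R3): the explicit series solution of the radial equation on `(0,1]`.

We write `u(r) = r^{3/2} P(r^2) / P(1)` with `P(x) = ∑ a_n x^n` where
`28 (n+1) (n+2) a_{n+1} = (12 (n-1) (n+2) + 7 s^2) a_n - 3 s^2 a_{n-1}`,
`a_n = a0_n + s^2 b_n`, `a0 = (7, -3, 0, ...)`, `|b_n| ≤ 2 * 2^{-n}`. -/

namespace Pool.Agent.Helper82.CLTd

open Set Filter Topology

/-- Source term in the recursion for `bs`. -/
def src : ℕ → ℂ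
  | 0 => -42
  | 1 => 9
  | _ => 0

/-- The unperturbed coefficients: `7 - 3 x`. -/
def a0 : ℕ → ℂ
  | 0 => 7
  | 1 => -3
  | _ => 0

/-- The perturbation coefficients. -/
noncomputable def bs (z : ℂ) : ℕ → ℂ
  | 0 => 0
  | 1 => 7 / 8
  | (n + 2) => ((12 * n * (n + 3) + 7 * z) * bs z (n + 1) - 3 * z * bs z n + src n) /
      (28 * (n + 2) * (n + 3))

/-- The coefficients of `P`. -/
noncomputable def cs (z : ℂ) (n : ℕ) : ℂ := a0 n + z * bs z n

lemma norm_src_le (n : ℕ) : ‖src n‖ ≤ 42 * (1 / 2) ^ n := by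
  match n with
  | 0 => simp [src]
  | 1 => simp [src]; norm_num
  | (n + 2) => simp only [src, norm_zero]; positivity

lemma bs_bound {z : ℂ} (hz : ‖z‖ ≤ 1 / 4) : ∀ n, ‖bs z n‖ ≤ 2 * (1 / 2) ^ n ∧
    ‖bs z (n + 1)‖ ≤ 2 * (1 / 2) ^ (n + 1) := by
  intro n
  induction n with
  | zero => constructor <;> simp [bs]; norm_num
  | succ n ih =>
    refine ⟨ih.2, ?_⟩
    obtain ⟨h1, h2⟩ := ih
    have hs := norm_src_le n
    have ht : (0 : ℝ) < (1 / 2) ^ n := by positivity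
    set t : ℝ := (1 / 2) ^ n with htdef
    have e1 : (1 / 2 : ℝ) ^ (n + 1) = t / 2 := by rw [pow_succ]; ring
    have e2 : (1 / 2 : ℝ) ^ (n + 1 + 1) = t / 4 := by rw [pow_succ, pow_succ]; ring
    rw [e1] at h2
    rw [e2]
    have hden : ‖(28 * ((n : ℂ) + 2) * (n + 3))‖ = 28 * ((n : ℝ) + 2) * (n + 3) := by
      have : (28 * ((n : ℂ) + 2) * (n + 3)) = ((28 * ((n : ℝ) + 2) * (n + 3) : ℝ) : ℂ) := by
        push_cast; ring
      rw [this, Complex.norm_real, Real.norm_eq_abs, abs_of_nonneg (by positivity)]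
    have hco : ‖(12 * (n : ℂ) * (n + 3) + 7 * z)‖ ≤ 12 * (n : ℝ) * (n + 3) + 7 / 4 := by
      refine (norm_add_le _ _).trans ?_
      have : (12 * (n : ℂ) * (n + 3)) = ((12 * (n : ℝ) * (n + 3) : ℝ) : ℂ) := by
        push_cast; ring
      rw [this, Complex.norm_real, Real.norm_eq_abs, abs_of_nonneg (by positivity), norm_mul]
      have : ‖(7 : ℂ)‖ = 7 := by simp
      rw [this]; linarith
    change ‖((12 * (n : ℂ) * (n + 3) + 7 * z) * bs z (n + 1) - 3 * z * bs z n + src n) /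
      (28 * (n + 2) * (n + 3))‖ ≤ _
    rw [norm_div, hden, div_le_iff₀ (by positivity)]
    have hn : (0 : ℝ) ≤ n := Nat.cast_nonneg n
    calc ‖(12 * (n : ℂ) * (n + 3) + 7 * z) * bs z (n + 1) - 3 * z * bs z n + src n‖
        ≤ ‖(12 * (n : ℂ) * (n + 3) + 7 * z) * bs z (n + 1)‖ + ‖3 * z * bs z n‖ + ‖src n‖ :=
          (norm_add_le _ _).trans (add_le_add (norm_sub_le _ _) le_rfl)
      _ ≤ (12 * (n : ℝ) * (n + 3) + 7 / 4) * (2 * (t / 2)) + 3 * (1 / 4) * (2 * t) + 42 * t := by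
          refine add_le_add (add_le_add ?_ ?_) hs
          · rw [norm_mul]
            exact mul_le_mul hco h2 (norm_nonneg _) (by positivity)
          · rw [norm_mul, norm_mul]
            have : ‖(3 : ℂ)‖ = 3 := by simp
            rw [this]
            refine mul_le_mul ?_ h1 (norm_nonneg _) (by norm_num)
            linarith
      _ ≤ 2 * (t / 4) * (28 * ((n : ℝ) + 2) * (n + 3)) := by
          have : 0 ≤ t * (2 * (n : ℝ) ^ 2 + 34 * n + 38) := by positivity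
          nlinarith

lemma norm_bs_le {z : ℂ} (hz : ‖z‖ ≤ 1 / 4) (n : ℕ) : ‖bs z n‖ ≤ 2 * (1 / 2) ^ n :=
  (bs_bound hz n).1

lemma norm_a0_le (n : ℕ) : ‖a0 n‖ ≤ 7 * (1 / 2) ^ n := by
  match n with
  | 0 => simp [a0]
  | 1 => simp [a0]; norm_num
  | (n + 2) => simp only [a0, norm_zero]; positivity

lemma norm_cs_le {z : ℂ} (hz : ‖z‖ ≤ 1 / 4) (n : ℕ) : ‖cs z n‖ ≤ 8 * (1 / 2) ^ n := by
  unfold cs
  refine (norm_add_le _ _).trans ?_
  rw [norm_mul]
  have h1 := norm_a0_le n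
  have h2 := norm_bs_le hz n
  have ht : (0 : ℝ) < (1 / 2) ^ n := by positivity
  have h3 : ‖z‖ * ‖bs z n‖ ≤ (1 / 4) * (2 * (1 / 2) ^ n) :=
    mul_le_mul hz h2 (norm_nonneg _) (by norm_num)
  linarith

/-- The recursion for `cs`. -/
lemma cs_rec (z : ℂ) (n : ℕ) :
    7 * (4 * (cs z (n + 1) * ((n + 1) * n)) + 8 * (cs z (n + 1) * (n + 1)))
      - 3 * (4 * (cs z n * (n * (n - 1))) + 8 * (cs z n * n))
      - (7 * z - 24) * cs z n + 3 * z * (if n = 0 then 0 else cs z (n - 1)) = 0 := by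
  match n with
  | 0 => simp [cs, a0, bs]; ring
  | (n + 1) =>
    have hden : (28 * ((n : ℂ) + 2) * (n + 3)) ≠ 0 := by
      have : (28 * ((n : ℂ) + 2) * (n + 3)) = ((28 * ((n : ℝ) + 2) * (n + 3) : ℝ) : ℂ) := by
        push_cast; ring
      rw [this]
      exact_mod_cast (by positivity : (28 * ((n : ℝ) + 2) * (n + 3)) ≠ 0)
    have hb : bs z (n + 1 + 1) * (28 * ((n : ℂ) + 2) * (n + 3)) =
        (12 * n * (n + 3) + 7 * z) * bs z (n + 1) - 3 * z * bs z n + src n := by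
      change ((12 * (n : ℂ) * (n + 3) + 7 * z) * bs z (n + 1) - 3 * z * bs z n + src n) /
        (28 * (n + 2) * (n + 3)) * (28 * ((n : ℂ) + 2) * (n + 3)) = _
      rw [div_mul_cancel₀ _ hden]
    have hsrc : a0 (n + 2) * (28 * ((n : ℂ) + 2) * (n + 3)) - (12 * n * (n + 3) + 7 * z) * a0 (n + 1)
        + 3 * z * a0 n + z * src n = 0 := by
      match n with
      | 0 => simp [a0, src]; ring
      | 1 => simp [a0, src]; ring
      | (n + 2) => simp [a0, src]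
    simp only [Nat.add_eq_zero_iff, one_ne_zero, and_false, if_false, Nat.add_sub_cancel]
    unfold cs
    push_cast
    have e : (n + 1 + 1 : ℕ) = n + 2 := rfl
    rw [e] at hb ⊢
    linear_combination z * hb + hsrc

lemma differentiable_bs : ∀ n, Differentiable ℂ (fun z => bs z n) ∧
    Differentiable ℂ (fun z => bs z (n + 1)) := by
  intro n
  induction n with
  | zero => exact ⟨by simp only [bs]; fun_prop, by simp only [bs]; fun_prop⟩
  | succ n ih =>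
    refine ⟨ih.2, ?_⟩
    obtain ⟨h1, h2⟩ := ih
    have : (fun z => bs z (n + 1 + 1)) = fun z =>
        ((12 * (n : ℂ) * (n + 3) + 7 * z) * bs z (n + 1) - 3 * z * bs z n + src n) /
        (28 * (n + 2) * (n + 3)) := by
      funext z; rfl
    rw [this]
    fun_prop

lemma differentiable_cs (n : ℕ) : Differentiable ℂ (fun z => cs z n) := by
  unfold cs
  have := (differentiable_bs n).1
  fun_prop

/-! ### Power series -/

/-- `∑ c_n x^n` -/
noncomputable def P0 (c : ℕ → ℂ) (x : ℂ) : ℂ := ∑' n, c n * x ^ n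
/-- derivative of `P0` -/
noncomputable def P1 (c : ℕ → ℂ) (x : ℂ) : ℂ := ∑' n, c n * ((n : ℂ) * x ^ (n - 1))
/-- second derivative of `P0` -/
noncomputable def P2 (c : ℕ → ℂ) (x : ℂ) : ℂ :=
  ∑' n, c n * ((n : ℂ) * (((n - 1 : ℕ) : ℂ) * x ^ (n - 1 - 1)))

lemma summ (k : ℕ) : Summable (fun n : ℕ => 8 * ((n : ℝ) ^ k * (5 / 8) ^ n)) :=
  (summable_pow_mul_geometric_of_norm_lt_one (R := ℝ) k (r := 5 / 8)
    (by rw [Real.norm_eq_abs, abs_of_pos (by norm_num)]; norm_num)).mul_left 8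

section

variable {c : ℕ → ℂ} (hc : ∀ n, ‖c n‖ ≤ 8 * (1 / 2) ^ n)
include hc

lemma bd0 {x : ℂ} (hx : ‖x‖ ≤ 5 / 4) (n : ℕ) : ‖c n * x ^ n‖ ≤ 8 * ((n : ℝ) ^ 0 * (5 / 8) ^ n) := by
  rw [norm_mul, norm_pow]
  calc ‖c n‖ * ‖x‖ ^ n ≤ 8 * (1 / 2) ^ n * (5 / 4) ^ n :=
        mul_le_mul (hc n) (pow_le_pow_left₀ (norm_nonneg _) hx n) (by positivity) (by positivity)
    _ = 8 * ((n : ℝ) ^ 0 * (5 / 8) ^ n) := by
        rw [mul_assoc, ← mul_pow]; norm_num

lemma bd1 {x : ℂ} (hx : ‖x‖ ≤ 5 / 4) (n : ℕ) :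
    ‖c n * ((n : ℂ) * x ^ (n - 1))‖ ≤ 8 * ((n : ℝ) ^ 1 * (5 / 8) ^ n) := by
  rw [norm_mul, norm_mul, norm_pow, Complex.norm_natCast]
  have h1 : ‖x‖ ^ (n - 1) ≤ (5 / 4) ^ n :=
    (pow_le_pow_left₀ (norm_nonneg _) hx _).trans (pow_le_pow_right₀ (by norm_num) (by omega))
  calc ‖c n‖ * (n * ‖x‖ ^ (n - 1)) ≤ 8 * (1 / 2) ^ n * (n * (5 / 4) ^ n) :=
        mul_le_mul (hc n) (mul_le_mul_of_nonneg_left h1 (by positivity)) (by positivity)
          (by positivity)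
    _ = 8 * ((n : ℝ) ^ 1 * ((1 / 2) ^ n * (5 / 4) ^ n)) := by ring
    _ = 8 * ((n : ℝ) ^ 1 * (5 / 8) ^ n) := by
        rw [← mul_pow]; norm_num

lemma bd2 {x : ℂ} (hx : ‖x‖ ≤ 5 / 4) (n : ℕ) :
    ‖c n * ((n : ℂ) * (((n - 1 : ℕ) : ℂ) * x ^ (n - 1 - 1)))‖ ≤ 8 * ((n : ℝ) ^ 2 * (5 / 8) ^ n) := by
  rw [norm_mul, norm_mul, norm_mul, norm_pow, Complex.norm_natCast, Complex.norm_natCast]
  have h1 : ‖x‖ ^ (n - 1 - 1) ≤ (5 / 4) ^ n :=
    (pow_le_pow_left₀ (norm_nonneg _) hx _).trans (pow_le_pow_right₀ (by norm_num) (by omega))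
  have h2 : ((n - 1 : ℕ) : ℝ) ≤ n := by exact_mod_cast Nat.sub_le n 1
  calc ‖c n‖ * (n * (((n - 1 : ℕ) : ℝ) * ‖x‖ ^ (n - 1 - 1)))
      ≤ 8 * (1 / 2) ^ n * (n * (n * (5 / 4) ^ n)) := by
        refine mul_le_mul (hc n) (mul_le_mul_of_nonneg_left ?_ (by positivity)) (by positivity)
          (by positivity)
        exact mul_le_mul h2 h1 (by positivity) (by positivity)
    _ = 8 * ((n : ℝ) ^ 2 * ((1 / 2) ^ n * (5 / 4) ^ n)) := by ring
    _ = 8 * ((n : ℝ) ^ 2 * (5 / 8) ^ n) := by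
        rw [← mul_pow]; norm_num

lemma sum0 {x : ℂ} (hx : ‖x‖ ≤ 5 / 4) : HasSum (fun n => c n * x ^ n) (P0 c x) :=
  (Summable.of_norm_bounded (summ 0) (bd0 hc hx)).hasSum

lemma sum1 {x : ℂ} (hx : ‖x‖ ≤ 5 / 4) : HasSum (fun n => c n * ((n : ℂ) * x ^ (n - 1))) (P1 c x) :=
  (Summable.of_norm_bounded (summ 1) (bd1 hc hx)).hasSum

lemma sum2 {x : ℂ} (hx : ‖x‖ ≤ 5 / 4) :
    HasSum (fun n => c n * ((n : ℂ) * (((n - 1 : ℕ) : ℂ) * x ^ (n - 1 - 1)))) (P2 c x) :=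
  (Summable.of_norm_bounded (summ 2) (bd2 hc hx)).hasSum

lemma hasDerivAt_P0 {x : ℂ} (hx : ‖x‖ < 5 / 4) : HasDerivAt (P0 c) (P1 c x) x := by
  have hopen : IsOpen (Metric.ball (0 : ℂ) (5 / 4)) := Metric.isOpen_ball
  have hpre : IsPreconnected (Metric.ball (0 : ℂ) (5 / 4)) :=
    (convex_ball _ _).isPreconnected
  refine hasDerivAt_tsum_of_isPreconnected (summ 1) hopen hpre (g := fun n x => c n * x ^ n)
    (g' := fun n x => c n * ((n : ℂ) * x ^ (n - 1))) ?_ ?_ (y₀ := 0) ?_ ?_ ?_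
  · intro n y _
    exact (hasDerivAt_pow n y).const_mul (c n)
  · intro n y hy
    exact bd1 hc (by rw [mem_ball_zero_iff] at hy; exact hy.le) n
  · simp
  · exact (sum0 hc (x := 0) (by simp; norm_num)).summable
  · rw [mem_ball_zero_iff]; exact hx

lemma hasDerivAt_P1 {x : ℂ} (hx : ‖x‖ < 5 / 4) : HasDerivAt (P1 c) (P2 c x) x := by
  have hopen : IsOpen (Metric.ball (0 : ℂ) (5 / 4)) := Metric.isOpen_ball
  have hpre : IsPreconnected (Metric.ball (0 : ℂ) (5 / 4)) :=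
    (convex_ball _ _).isPreconnected
  refine hasDerivAt_tsum_of_isPreconnected (summ 2) hopen hpre
    (g := fun n x => c n * ((n : ℂ) * x ^ (n - 1)))
    (g' := fun n x => c n * ((n : ℂ) * (((n - 1 : ℕ) : ℂ) * x ^ (n - 1 - 1)))) ?_ ?_ (y₀ := 0) ?_ ?_ ?_
  · intro n y _
    exact ((hasDerivAt_pow (n - 1) y).const_mul (n : ℂ)).const_mul (c n)
  · intro n y hy
    exact bd2 hc (by rw [mem_ball_zero_iff] at hy; exact hy.le) n
  · simp
  · exact (sum1 hc (x := 0) (by simp; norm_num)).summable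
  · rw [mem_ball_zero_iff]; exact hx

lemma norm_P0_le {x : ℂ} (hx : ‖x‖ ≤ 5 / 4) : ‖P0 c x‖ ≤ ∑' n : ℕ, 8 * ((n : ℝ) ^ 0 * (5 / 8) ^ n) :=
  tsum_of_norm_bounded (summ 0).hasSum (bd0 hc hx)

lemma norm_P1_le {x : ℂ} (hx : ‖x‖ ≤ 5 / 4) : ‖P1 c x‖ ≤ ∑' n : ℕ, 8 * ((n : ℝ) ^ 1 * (5 / 8) ^ n) :=
  tsum_of_norm_bounded (summ 1).hasSum (bd1 hc hx)

end

lemma hasSum_congr' {f g : ℕ → ℂ} {a : ℂ} (h : ∀ n, f n = g n) : HasSum f a ↔ HasSum g a := by
  rw [funext h]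

/-- The differential equation for `P`. -/
lemma ode_P {z : ℂ} (hz : ‖z‖ ≤ 1 / 4) {x : ℂ} (hx : ‖x‖ ≤ 5 / 4) :
    (7 - 3 * x) * (4 * x * P2 (cs z) x + 8 * P1 (cs z) x)
      = (z * (7 - 3 * x) - 24) * P0 (cs z) x := by
  have hc := norm_cs_le hz
  have h0 := sum0 hc hx
  have h1 := sum1 hc hx
  have h2 := sum2 hc hx
  have k1 : HasSum (fun n => cs z n * (n : ℂ) * x ^ n) (x * P1 (cs z) x) := by
    refine (hasSum_congr' fun n => ?_).mpr (h1.mul_left x)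
    cases n with
    | zero => simp
    | succ n => rw [Nat.add_sub_cancel, pow_succ]; ring
  have k2 : HasSum (fun n => cs z n * ((n : ℂ) * (n - 1)) * x ^ n) (x * (x * P2 (cs z) x)) := by
    refine (hasSum_congr' fun n => ?_).mpr ((h2.mul_left x).mul_left x)
    match n with
    | 0 => simp
    | 1 => simp
    | (n + 2) =>
      have : (n + 2 - 1 - 1 : ℕ) = n := by omega
      rw [this]
      have : (n + 2 - 1 : ℕ) = n + 1 := by omega
      rw [this, pow_succ, pow_succ]; push_cast; ring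
  have k3 : HasSum (fun n => cs z (n + 1) * ((n : ℂ) + 1) * x ^ n) (P1 (cs z) x) := by
    have := (hasSum_nat_add_iff' 1).mpr h1
    simp only [Finset.range_one, Finset.sum_singleton, Nat.cast_zero, zero_mul, mul_zero,
      sub_zero] at this
    refine (hasSum_congr' fun n => ?_).mpr this
    rw [Nat.add_sub_cancel]; push_cast; ring
  have k4 : HasSum (fun n => cs z (n + 1) * (((n : ℂ) + 1) * n) * x ^ n) (x * P2 (cs z) x) := by
    have := (hasSum_nat_add_iff' 1).mpr (h2.mul_left x)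
    simp only [Finset.range_one, Finset.sum_singleton, Nat.cast_zero, zero_mul, mul_zero,
      sub_zero] at this
    refine (hasSum_congr' fun n => ?_).mpr this
    cases n with
    | zero => simp
    | succ n =>
      have : (n + 1 + 1 - 1 - 1 : ℕ) = n := by omega
      rw [this]
      have : (n + 1 + 1 - 1 : ℕ) = n + 1 := by omega
      rw [this, pow_succ]; push_cast; ring
  have k5 : HasSum (fun n => (if n = 0 then 0 else cs z (n - 1)) * x ^ n) (x * P0 (cs z) x) := by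
    have := (hasSum_nat_add_iff (f := fun n => (if n = 0 then 0 else cs z (n - 1)) * x ^ n) 1
      (g := x * P0 (cs z) x)).mp (by
        refine (hasSum_congr' fun n => ?_).mpr (h0.mul_left x)
        simp only [Nat.add_eq_zero_iff, one_ne_zero, and_false, if_false, Nat.add_sub_cancel]
        rw [pow_succ]; ring)
    simpa using this
  have key := ((((k4.mul_left 4).add (k3.mul_left 8)).mul_left 7).sub
    (((k2.mul_left 4).add (k1.mul_left 8)).mul_left 3)).sub (h0.mul_left (7 * z - 24)) |>.add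
    (k5.mul_left (3 * z))
  have hz' : (fun n : ℕ => 7 * (4 * (cs z (n + 1) * (((n : ℂ) + 1) * n) * x ^ n)
      + 8 * (cs z (n + 1) * ((n : ℂ) + 1) * x ^ n))
      - 3 * (4 * (cs z n * ((n : ℂ) * (n - 1)) * x ^ n) + 8 * (cs z n * (n : ℂ) * x ^ n))
      - (7 * z - 24) * (cs z n * x ^ n) + 3 * z * ((if n = 0 then 0 else cs z (n - 1)) * x ^ n))
      = fun _ => 0 := by
    funext n
    have := cs_rec z n
    linear_combination (x ^ n) * this
  rw [hz'] at key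
  have := key.unique hasSum_zero
  linear_combination this

/-! ### Values at `1` -/

lemma hasSum_a0 : HasSum a0 4 := by
  have h : HasSum a0 (∑ n ∈ ({0, 1} : Finset ℕ), a0 n) := hasSum_sum_of_ne_finset_zero (by
    intro n hn
    match n with
    | 0 => simp at hn
    | 1 => simp at hn
    | (n + 2) => rfl)
  have e : (∑ n ∈ ({0, 1} : Finset ℕ), a0 n) = 4 := by simp [a0]; norm_num
  rwa [e] at h

lemma hasSum_a0' : HasSum (fun n : ℕ => (3 / 2 + 2 * (n : ℂ)) * a0 n) 0 := by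
  have h : HasSum (fun n : ℕ => (3 / 2 + 2 * (n : ℂ)) * a0 n)
      (∑ n ∈ ({0, 1} : Finset ℕ), (3 / 2 + 2 * (n : ℂ)) * a0 n) :=
    hasSum_sum_of_ne_finset_zero (by
      intro n hn
      match n with
      | 0 => simp at hn
      | 1 => simp at hn
      | (n + 2) => simp [a0])
  have e : (∑ n ∈ ({0, 1} : Finset ℕ), (3 / 2 + 2 * (n : ℂ)) * a0 n) = 0 := by
    simp [a0]; norm_num
  rwa [e] at h

lemma P0_one {z : ℂ} (hz : ‖z‖ ≤ 1 / 4) : 3 ≤ ‖P0 (cs z) 1‖ := by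
  have h0 := sum0 (norm_cs_le hz) (x := 1) (by simp; norm_num)
  have h1 : HasSum (fun n => z * bs z n) (P0 (cs z) 1 - 4) := by
    refine (hasSum_congr' fun n => ?_).mpr (h0.sub hasSum_a0)
    simp [cs]
  have hg : HasSum (fun n : ℕ => (1 / 4 : ℝ) * (2 * (1 / 2) ^ n)) 1 := by
    have := (hasSum_geometric_two.mul_left (2 : ℝ)).mul_left (1 / 4 : ℝ)
    rwa [show (1 / 4 : ℝ) * (2 * 2) = 1 by norm_num] at this
  have hb : ‖P0 (cs z) 1 - 4‖ ≤ 1 := by
    rw [← h1.tsum_eq]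
    refine tsum_of_norm_bounded hg fun n => ?_
    rw [norm_mul]
    exact mul_le_mul hz (norm_bs_le hz n) (norm_nonneg _) (by norm_num)
  have h4 : ‖(4 : ℂ)‖ ≤ ‖P0 (cs z) 1‖ + ‖P0 (cs z) 1 - 4‖ := by
    have : (4 : ℂ) = P0 (cs z) 1 - (P0 (cs z) 1 - 4) := by ring
    calc ‖(4 : ℂ)‖ = ‖P0 (cs z) 1 - (P0 (cs z) 1 - 4)‖ := by rw [← this]
      _ ≤ _ := norm_sub_le _ _
  have : ‖(4 : ℂ)‖ = 4 := by simp
  linarith

lemma summ' : Summable (fun n : ℕ => (3 / 2 + 2 * (n : ℝ)) * (2 * (1 / 2) ^ n)) := by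
  have h1 := (summable_pow_mul_geometric_of_norm_lt_one (R := ℝ) 1 (r := 1 / 2)
    (by rw [Real.norm_eq_abs, abs_of_pos (by norm_num)]; norm_num)).mul_left 4
  have h2 := (summable_pow_mul_geometric_of_norm_lt_one (R := ℝ) 0 (r := 1 / 2)
    (by rw [Real.norm_eq_abs, abs_of_pos (by norm_num)]; norm_num)).mul_left 3
  refine (h1.add h2).congr fun n => ?_
  ring

/-- The constant. -/
noncomputable def KN : ℝ := ∑' n : ℕ, (3 / 2 + 2 * (n : ℝ)) * (2 * (1 / 2) ^ n)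

lemma KN_nonneg : 0 ≤ KN := tsum_nonneg fun n => by positivity

lemma N_one {z : ℂ} (hz : ‖z‖ ≤ 1 / 4) :
    ‖3 / 2 * P0 (cs z) 1 + 2 * P1 (cs z) 1‖ ≤ ‖z‖ * KN := by
  have h0 := sum0 (norm_cs_le hz) (x := 1) (by simp; norm_num)
  have h1 := sum1 (norm_cs_le hz) (x := 1) (by simp; norm_num)
  have h2 : HasSum (fun n : ℕ => z * ((3 / 2 + 2 * (n : ℂ)) * bs z n))
      (3 / 2 * P0 (cs z) 1 + 2 * P1 (cs z) 1) := by
    have := ((h0.mul_left (3 / 2)).add (h1.mul_left 2)).sub hasSum_a0'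
    rw [sub_zero] at this
    refine (hasSum_congr' fun n => ?_).mpr this
    simp [cs]; ring
  rw [← h2.tsum_eq]
  refine tsum_of_norm_bounded (summ'.hasSum.mul_left ‖z‖) fun n => ?_
  rw [norm_mul, norm_mul]
  refine mul_le_mul_of_nonneg_left ?_ (norm_nonneg _)
  refine mul_le_mul ?_ (norm_bs_le hz n) (norm_nonneg _) (by positivity)
  have : (3 / 2 + 2 * (n : ℂ)) = ((3 / 2 + 2 * (n : ℝ) : ℝ) : ℂ) := by push_cast; ring
  rw [this, Complex.norm_real, Real.norm_eq_abs, abs_of_nonneg (by positivity)]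

lemma norm_sq_le {s : ℂ} (hs : ‖s‖ < 1 / 2) : ‖s ^ 2‖ ≤ 1 / 4 := by
  rw [norm_pow]
  have := norm_nonneg s
  nlinarith

lemma diff_P0 : DifferentiableOn ℂ (fun s : ℂ => P0 (cs (s ^ 2)) 1) (Metric.ball 0 (1 / 2)) := by
  unfold P0
  refine Complex.differentiableOn_tsum_of_summable_norm (summ 0) (fun n => ?_) Metric.isOpen_ball
    (fun n s hs => ?_)
  · have := differentiable_cs n
    have h2 : Differentiable ℂ (fun s : ℂ => cs (s ^ 2) n) :=
      this.comp (differentiable_id.pow 2)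
    exact (h2.mul_const _).differentiableOn
  · rw [mem_ball_zero_iff] at hs
    exact bd0 (norm_cs_le (norm_sq_le hs)) (by simp; norm_num) n

lemma diff_P1 : DifferentiableOn ℂ (fun s : ℂ => P1 (cs (s ^ 2)) 1) (Metric.ball 0 (1 / 2)) := by
  unfold P1
  refine Complex.differentiableOn_tsum_of_summable_norm (summ 1) (fun n => ?_) Metric.isOpen_ball
    (fun n s hs => ?_)
  · have := differentiable_cs n
    have h2 : Differentiable ℂ (fun s : ℂ => cs (s ^ 2) n) :=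
      this.comp (differentiable_id.pow 2)
    exact (h2.mul_const _).differentiableOn
  · rw [mem_ball_zero_iff] at hs
    exact bd1 (norm_cs_le (norm_sq_le hs)) (by simp; norm_num) n

/-- The solution. -/
noncomputable def uu (s : ℂ) (r : ℝ) : ℂ :=
  (r : ℂ) * (Real.sqrt r : ℂ) * P0 (cs (s ^ 2)) ((r : ℂ) ^ 2) / P0 (cs (s ^ 2)) 1

/-- Its derivative. -/
noncomputable def uu' (s : ℂ) (r : ℝ) : ℂ :=
  (3 / 2 * (Real.sqrt r : ℂ) * P0 (cs (s ^ 2)) ((r : ℂ) ^ 2)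
    + 2 * (r : ℂ) ^ 2 * (Real.sqrt r : ℂ) * P1 (cs (s ^ 2)) ((r : ℂ) ^ 2)) / P0 (cs (s ^ 2)) 1

/-- The logarithmic derivative plus `s`. -/
noncomputable def ff (s : ℂ) : ℂ :=
  s + (3 / 2 * P0 (cs (s ^ 2)) 1 + 2 * P1 (cs (s ^ 2)) 1) / P0 (cs (s ^ 2)) 1

lemma norm_sq_real {r : ℝ} (hr : 0 < r) (hr1 : r ≤ 1) : ‖(r : ℂ) ^ 2‖ ≤ 1 := by
  rw [norm_pow, Complex.norm_real, Real.norm_eq_abs, abs_of_pos hr]
  nlinarith

lemma hasDerivAt_sqrtC {r : ℝ} (hr : 0 < r) :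
    HasDerivAt (fun r : ℝ => (Real.sqrt r : ℂ)) (1 / (2 * (Real.sqrt r : ℂ))) r := by
  have := (Real.hasDerivAt_sqrt hr.ne').ofReal_comp
  refine HasDerivAt.congr_deriv this ?_
  push_cast; ring

lemma hasDerivAt_idC (r : ℝ) : HasDerivAt (fun r : ℝ => (r : ℂ)) 1 r := by
  simpa using (hasDerivAt_id r).ofReal_comp

lemma hasDerivAt_sqC (r : ℝ) : HasDerivAt (fun r : ℝ => (r : ℂ) ^ 2) (2 * (r : ℂ)) r := by
  have := (hasDerivAt_idC r).pow 2
  refine HasDerivAt.congr_deriv this ?_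
  simp

lemma hasDerivAt_uu {s : ℂ} (hs : ‖s‖ < 1 / 2) {r : ℝ} (hr : 0 < r) (hr1 : r ≤ 1) :
    HasDerivAt (uu s) (uu' s r) r := by
  have hc := norm_cs_le (norm_sq_le hs)
  have hx : ‖(r : ℂ) ^ 2‖ < 5 / 4 := (norm_sq_real hr hr1).trans_lt (by norm_num)
  have hP : HasDerivAt (fun r : ℝ => P0 (cs (s ^ 2)) ((r : ℂ) ^ 2))
      (P1 (cs (s ^ 2)) ((r : ℂ) ^ 2) * (2 * (r : ℂ))) r := by
    have := (hasDerivAt_P0 hc hx).comp r (hasDerivAt_sqC r)
    exact this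
  have h := (((hasDerivAt_idC r).mul (hasDerivAt_sqrtC hr)).mul hP).div_const
    (P0 (cs (s ^ 2)) 1)
  refine HasDerivAt.congr_deriv h ?_
  unfold uu'
  have hq : (Real.sqrt r : ℂ) ≠ 0 := by
    exact_mod_cast (Real.sqrt_pos.mpr hr).ne'
  have hqq : (Real.sqrt r : ℂ) * (Real.sqrt r : ℂ) = r := by
    exact_mod_cast Real.mul_self_sqrt hr.le
  have e1 : (r : ℂ) * (1 / (2 * (Real.sqrt r : ℂ))) = Real.sqrt r / 2 := by
    field_simp
    rw [← hqq]; ring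
  congr 1
  simp only [Pi.mul_apply]
  rw [e1]
  ring

lemma hasDerivAt_uu' {s : ℂ} (hs : ‖s‖ < 1 / 2) {r : ℝ} (hr : 0 < r) (hr1 : r ≤ 1) :
    HasDerivAt (uu' s) (((3 / (4 * r ^ 2) - 24 / (7 - 3 * r ^ 2) : ℝ) + s ^ 2) * uu s r) r := by
  have hc := norm_cs_le (norm_sq_le hs)
  have hx : ‖(r : ℂ) ^ 2‖ < 5 / 4 := (norm_sq_real hr hr1).trans_lt (by norm_num)
  have hP : HasDerivAt (fun r : ℝ => P0 (cs (s ^ 2)) ((r : ℂ) ^ 2))
      (P1 (cs (s ^ 2)) ((r : ℂ) ^ 2) * (2 * (r : ℂ))) r := by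
    have := (hasDerivAt_P0 hc hx).comp r (hasDerivAt_sqC r)
    exact this
  have hP1 : HasDerivAt (fun r : ℝ => P1 (cs (s ^ 2)) ((r : ℂ) ^ 2))
      (P2 (cs (s ^ 2)) ((r : ℂ) ^ 2) * (2 * (r : ℂ))) r := by
    have := (hasDerivAt_P1 hc hx).comp r (hasDerivAt_sqC r)
    exact this
  have h := ((((hasDerivAt_sqrtC hr).const_mul (3 / 2 : ℂ)).mul hP).add
    ((((hasDerivAt_sqC r).const_mul (2 : ℂ)).mul (hasDerivAt_sqrtC hr)).mul hP1)).div_const
    (P0 (cs (s ^ 2)) 1)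
  refine HasDerivAt.congr_deriv h ?_
  unfold uu
  have hq : (Real.sqrt r : ℂ) ≠ 0 := by
    exact_mod_cast (Real.sqrt_pos.mpr hr).ne'
  have hqq : (Real.sqrt r : ℂ) * (Real.sqrt r : ℂ) = r := by
    exact_mod_cast Real.mul_self_sqrt hr.le
  have hr0 : (r : ℂ) ≠ 0 := by exact_mod_cast hr.ne'
  have h7 : (7 - 3 * (r : ℂ) ^ 2) ≠ 0 := by
    have : (7 - 3 * r ^ 2 : ℝ) ≠ 0 := by nlinarith
    exact_mod_cast this
  have hode := ode_P (norm_sq_le hs) hx.le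
  have hode' : 4 * (r : ℂ) ^ 2 * P2 (cs (s ^ 2)) ((r : ℂ) ^ 2) + 8 * P1 (cs (s ^ 2)) ((r : ℂ) ^ 2)
      = (s ^ 2 - 24 / (7 - 3 * (r : ℂ) ^ 2)) * P0 (cs (s ^ 2)) ((r : ℂ) ^ 2) := by
    refine mul_left_cancel₀ h7 ?_
    have hd : (7 - 3 * (r : ℂ) ^ 2) * (24 / (7 - 3 * (r : ℂ) ^ 2)) = 24 := mul_div_cancel₀ _ h7
    linear_combination hode + (P0 (cs (s ^ 2)) ((r : ℂ) ^ 2)) * hd
  have e1 : (1 / (2 * (Real.sqrt r : ℂ))) = Real.sqrt r / (2 * r) := by
    rw [div_eq_div_iff (by simpa using hq) (by simpa using hr0), ← hqq]; ring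
  simp only [Pi.mul_apply]
  rw [e1]
  push_cast
  have e2 : (3 / (4 * (r : ℂ) ^ 2)) * ((r : ℂ) * Real.sqrt r) = 3 / 2 * (Real.sqrt r / (2 * r)) := by
    field_simp; ring
  have e3 : (2 : ℂ) * (r : ℂ) ^ 2 * (Real.sqrt r / (2 * r)) = r * Real.sqrt r := by
    field_simp
  linear_combination (P0 (cs (s ^ 2)) 1)⁻¹ * (-(P0 (cs (s ^ 2)) ((r : ℂ) ^ 2)) * e2
    + (P1 (cs (s ^ 2)) ((r : ℂ) ^ 2)) * e3 + ((r : ℂ) * Real.sqrt r) * hode')

/-- (R3) -/
theorem inner_solution : ∃ (f : ℂ → ℂ) (u u' : ℂ → ℝ → ℂ) (C : ℝ), 0 < C ∧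
    DifferentiableOn ℂ f (Metric.ball 0 (1 / 2)) ∧
    ∀ s : ℂ, ‖s‖ < 1 / 2 → ‖f s - s‖ ≤ C * ‖s‖ ^ 2 ∧
      u s 1 = 1 ∧ u' s 1 = f s - s ∧ ContinuousOn (u s) (Ioc 0 1) ∧ ContinuousOn (u' s) (Ioc 0 1) ∧
      (∀ r, 0 < r → r < 1 → HasDerivAt (u s) (u' s r) r ∧
        HasDerivAt (u' s) (((3 / (4 * r ^ 2) - 24 / (7 - 3 * r ^ 2) : ℝ) + s ^ 2) * u s r) r) ∧
      (∀ r, 0 < r → r ≤ 1 → ‖u s r‖ ≤ C * r ^ (3 / 2 : ℝ) ∧ ‖u' s r‖ ≤ C * r ^ (1 / 2 : ℝ)) := by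
  set M0 : ℝ := ∑' n : ℕ, 8 * ((n : ℝ) ^ 0 * (5 / 8) ^ n) with hM0
  set M1 : ℝ := ∑' n : ℕ, 8 * ((n : ℝ) ^ 1 * (5 / 8) ^ n) with hM1
  have hM0n : 0 ≤ M0 := tsum_nonneg fun n => by positivity
  have hM1n : 0 ≤ M1 := tsum_nonneg fun n => by positivity
  have hKN := KN_nonneg
  refine ⟨ff, uu, uu', 1 + KN + M0 + M1, by positivity, ?_, ?_⟩
  · unfold ff
    refine DifferentiableOn.add differentiableOn_id (DifferentiableOn.div
      ((diff_P0.const_mul _).add (diff_P1.const_mul _)) diff_P0 ?_)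
    intro s hs h0
    rw [mem_ball_zero_iff] at hs
    have := P0_one (norm_sq_le hs)
    rw [h0, norm_zero] at this
    linarith
  · intro s hs
    have h3 := P0_one (norm_sq_le hs)
    have hne : P0 (cs (s ^ 2)) 1 ≠ 0 := by
      intro h0; rw [h0, norm_zero] at h3; linarith
    have hpos : 0 < ‖P0 (cs (s ^ 2)) 1‖ := by linarith
    refine ⟨?_, ?_, ?_, ?_, ?_, ?_, ?_⟩
    · unfold ff
      rw [add_sub_cancel_left, norm_div, div_le_iff₀ hpos]
      have := N_one (norm_sq_le hs)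
      rw [norm_pow] at this
      have hs2 : 0 ≤ ‖s‖ ^ 2 := by positivity
      calc _ ≤ ‖s‖ ^ 2 * KN := this
        _ = KN * ‖s‖ ^ 2 * 1 := by ring
        _ ≤ (1 + KN + M0 + M1) * ‖s‖ ^ 2 * ‖P0 (cs (s ^ 2)) 1‖ := by
            refine mul_le_mul ?_ (by linarith) (by norm_num) (by positivity)
            exact mul_le_mul_of_nonneg_right (by linarith) hs2
    · unfold uu
      simp only [Complex.ofReal_one, Real.sqrt_one, one_pow, one_mul]
      exact div_self hne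
    · unfold uu' ff
      simp only [Complex.ofReal_one, Real.sqrt_one, one_pow, mul_one]
      ring
    · intro r hr
      exact (hasDerivAt_uu hs hr.1 hr.2).continuousAt.continuousWithinAt
    · intro r hr
      exact (hasDerivAt_uu' hs hr.1 hr.2).continuousAt.continuousWithinAt
    · intro r hr hr1
      exact ⟨hasDerivAt_uu hs hr hr1.le, hasDerivAt_uu' hs hr hr1.le⟩
    · intro r hr hr1
      have hc := norm_cs_le (norm_sq_le hs)
      have hx : ‖(r : ℂ) ^ 2‖ ≤ 5 / 4 := (norm_sq_real hr hr1).trans (by norm_num)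
      have b0 := norm_P0_le hc hx
      have b1 := norm_P1_le hc hx
      rw [← hM0] at b0
      rw [← hM1] at b1
      have hsq : 0 < Real.sqrt r := Real.sqrt_pos.mpr hr
      have hnr : ‖(r : ℂ)‖ = r := by
        rw [Complex.norm_real, Real.norm_eq_abs, abs_of_pos hr]
      have hns : ‖(Real.sqrt r : ℂ)‖ = Real.sqrt r := by
        rw [Complex.norm_real, Real.norm_eq_abs, abs_of_pos hsq]
      have e32 : r ^ (3 / 2 : ℝ) = r * Real.sqrt r := by
        rw [show (3 / 2 : ℝ) = 1 + 1 / 2 by norm_num, Real.rpow_add hr, Real.rpow_one,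
          Real.sqrt_eq_rpow]
      have e12 : r ^ (1 / 2 : ℝ) = Real.sqrt r := by rw [Real.sqrt_eq_rpow]
      constructor
      · unfold uu
        rw [norm_div, div_le_iff₀ hpos, norm_mul, norm_mul, hnr, hns, e32]
        calc r * Real.sqrt r * ‖P0 (cs (s ^ 2)) ((r : ℂ) ^ 2)‖ ≤ r * Real.sqrt r * M0 :=
              mul_le_mul_of_nonneg_left b0 (by positivity)
          _ = M0 * (r * Real.sqrt r) * 1 := by ring
          _ ≤ (1 + KN + M0 + M1) * (r * Real.sqrt r) * ‖P0 (cs (s ^ 2)) 1‖ := by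
              refine mul_le_mul ?_ (by linarith) (by norm_num) (by positivity)
              exact mul_le_mul_of_nonneg_right (by linarith) (by positivity)
      · unfold uu'
        rw [norm_div, div_le_iff₀ hpos, e12]
        have n32 : ‖(3 / 2 : ℂ)‖ = 3 / 2 := by
          rw [norm_div]; simp
        have n2 : ‖(2 : ℂ)‖ = 2 := by simp
        calc _ ≤ ‖3 / 2 * (Real.sqrt r : ℂ) * P0 (cs (s ^ 2)) ((r : ℂ) ^ 2)‖
              + ‖2 * (r : ℂ) ^ 2 * (Real.sqrt r : ℂ) * P1 (cs (s ^ 2)) ((r : ℂ) ^ 2)‖ :=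
              norm_add_le _ _
          _ ≤ 3 / 2 * Real.sqrt r * M0 + 2 * 1 * Real.sqrt r * M1 := by
              refine add_le_add ?_ ?_
              · rw [norm_mul, norm_mul, n32, hns]
                exact mul_le_mul_of_nonneg_left b0 (by positivity)
              · rw [norm_mul, norm_mul, norm_mul, n2, hns]
                refine mul_le_mul ?_ b1 (norm_nonneg _) (by positivity)
                refine mul_le_mul_of_nonneg_right ?_ hsq.le
                exact mul_le_mul_of_nonneg_left (norm_sq_real hr hr1) (by norm_num)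
          _ ≤ (1 + KN + M0 + M1) * Real.sqrt r * 3 := by
              nlinarith [mul_nonneg hM0n hsq.le, mul_nonneg hM1n hsq.le, mul_nonneg hKN hsq.le]
          _ ≤ (1 + KN + M0 + M1) * Real.sqrt r * ‖P0 (cs (s ^ 2)) 1‖ := by
              exact mul_le_mul_of_nonneg_left h3 (by positivity)

end Pool.Agent.Helper82.CLTd
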